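import Mathlib
import Pool.Agent.H53.Br.Small

/-!
MP_45d19c_an: for every period, resonant ones included, breathers do not exist for some `c₂ < 0`.
-/

namespace Pool.Agent.Results.MP_45d19c_an.EveryPeriod

open H53.Br

/-- Let `N ≥ 3`, `c₁ > 0`, `γ > 0`. For every period `T > 0` there is `ε > 0` such that there is no
nonzero breather of period `T` if `c₂ ≥ -ε`, `c₃, …, c_N ≥ 0` and `c_N ≥ γ`. -/
theorem result (N : ℕ) (hN : 3 ≤ N) (c₁ γ T : ℝ) (hc₁ : 0 < c₁) (hγ : 0 < γ) (hT : 0 < T) :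
    ∃ ε : ℝ, 0 < ε ∧ ∀ c : ℕ → ℝ, c 1 = c₁ → γ ≤ c N → (∀ j, 3 ≤ j → j ≤ N → 0 ≤ c j) →
      -ε ≤ c 2 → ∀ u : ℝ → ℝ → ℝ, IsBreather N c T u → ∀ x t, u x t = 0 :=
  IsBreather.stab hN hc₁ hγ hT

end Pool.Agent.Results.MP_45d19c_an.EveryPeriod
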