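import Mathlib
import Pool.Agent.H53.Br.Det2

/-!
MP_45d19c_an: a breather is determined by finitely many sine coefficients at one large `x₀`.
-/

namespace Pool.Agent.Results.MP_45d19c_an.FiniteDetermination

open H53.Br Real

/-- For all coefficients, every period `T` and every constant `C` there is `X ≥ 1` such that two
breathers `u`, `v` with `x² |u|, x² |v| ≤ C` for `x ≥ x₀`, where `x₀ ≥ X`, are equal as soon as their
sine coefficients at `x₀` agree for the finitely many modes `k ≥ 1` with `(2πk/T)² < c₁`. -/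
theorem result (N : ℕ) (hN : 1 ≤ N) (c : ℕ → ℝ) (T : ℝ) (hT : 0 < T) (C : ℝ) :
    ∃ X : ℝ, 1 ≤ X ∧ ∀ u v : ℝ → ℝ → ℝ, IsBreather N c T u → IsBreather N c T v →
      ∀ x₀, X ≤ x₀ → (∀ x t, x₀ ≤ x → x ^ 2 * |u x t| ≤ C ∧ x ^ 2 * |v x t| ≤ C) →
      (∀ k : ℕ, 1 ≤ k → (2 * π * k / T) ^ 2 < c 1 →
        ∫ t in (0 : ℝ)..T, u x₀ t * sin (2 * π * k * t / T) =
          ∫ t in (0 : ℝ)..T, v x₀ t * sin (2 * π * k * t / T)) →
      u = v := by
  obtain ⟨X, hX, h⟩ := finite_det hN c hT C
  refine ⟨X, hX, fun u v hu hv x₀ hx₀ hb hk => ?_⟩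
  have h1 := h u v hu hv x₀ hx₀ (fun x t hx => (hb x t hx).1) (fun x t hx => (hb x t hx).2)
    (fun k hk1 hk2 => by
      have h2 := hk k hk1 (by
        have e : 2 * π * k / T = k * (2 * π / T) := by ring
        rw [e]; exact hk2)
      unfold sc
      simp only [Int.cast_natCast]
      exact h2)
  funext x t
  exact h1 x t

end Pool.Agent.Results.MP_45d19c_an.FiniteDetermination
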