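import Mathlib
import Pool.Agent.H93.Br.Cor2

/-!
MP_45d19c_an: a nonexistence criterion for breathers which allows `c₂ < 0`.
-/

namespace Pool.Agent.Results.MP_45d19c_an.NearlyStarShaped

open H53.Br Real

/-- A breather `u` of period `T` is zero if, for some `η ≥ 0` with `η κ < 2` and some continuous `h`,
nondecreasing on `[0,∞)`, all values `v` of `u` satisfy `|g(v) - c₁ v| ≤ h(|v|)` and
`η v² + v g(v) - 2 G(v) ≥ η κ |v| h(|v|)`. Here `κ` is the `L¹` norm of a Green function of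
`d²/dt² + c₁` (not needed if `η = 0`). -/
theorem result (N : ℕ) (hN : 1 ≤ N) (c : ℕ → ℝ) (T : ℝ) (hT : 0 < T) (κ η : ℝ)
    (hκ : η = 0 ∨
      (sin (√(c 1) * T / 2) ≠ 0 ∧ ∃ a : ℝ, κ = ∫ s in (0 : ℝ)..T,
        |cos (√(c 1) * (s - T / 2)) - a| / (2 * √(c 1) * |sin (√(c 1) * T / 2)|)) ∨
      (2 * π < √(c 1) * T ∧ √(c 1) * T ≤ 4 * π ∧ κ = (1 + 1 / |cos (√(c 1) * T / 4)|) / c 1))
    (hη : 0 ≤ η) (hηκ : η * κ < 2) (h : ℝ → ℝ) (hh : Continuous h)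
    (hm : MonotoneOn h (Set.Ici 0)) (u : ℝ → ℝ → ℝ) (hu : IsBreather N c T u)
    (hr : ∀ x t, |gg N c (u x t) - c 1 * u x t| ≤ h |u x t|)
    (hcrit : ∀ x t, η * κ * (|u x t| * h |u x t|) ≤
      η * u x t ^ 2 + (u x t * gg N c (u x t) - 2 * GG N c (u x t))) :
    ∀ x t, u x t = 0 :=
  H93.Br.crit_all hN hu hT hκ hη hηκ hh hm hr hcrit

end Pool.Agent.Results.MP_45d19c_an.NearlyStarShaped
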