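import Mathlib
import Pool.Agent.H53.Br.Short

/-!
MP_45d19c_an: the set of breathers for all periods `T ≤ 4π/√c₁`.
-/

namespace Pool.Agent.Results.MP_45d19c_an.ShortPeriods

open H53.Br Real

/-- Let `c₁ ≤ (4π/T)²`. Then either there is no nonzero breather of period `T`, or there is one
nonzero breather `U`, even in `x` and changing sign under `t ↦ t + T/2`, such that the breathers are
exactly `0` and the translates `±U(x - s, t)`. -/
theorem result (N : ℕ) (hN : 1 ≤ N) (c : ℕ → ℝ) (T : ℝ) (hT : 0 < T)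
    (hc : c 1 ≤ (4 * π / T) ^ 2) :
    (∀ u, IsBreather N c T u → ∀ x t, u x t = 0) ∨
    ∃ U, IsBreather N c T U ∧ (∃ x t, U x t ≠ 0) ∧ (∀ x t, U (-x) t = U x t) ∧
      (∀ x t, U x (t + T / 2) = - U x t) ∧
      ∀ u, IsBreather N c T u ↔ (∀ x t, u x t = 0) ∨
        ∃ s, (∀ x t, u x t = U (x - s) t) ∨ (∀ x t, u x t = - U (x - s) t) :=
  short hN hT hc

end Pool.Agent.Results.MP_45d19c_an.ShortPeriods
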